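import Pool.Agent.H16.TK.Stmt2

/-! Module ENX: transfer of the canonical separator. -/

set_option autoImplicit false

open Set

namespace Pool.Agent.TK

variable {C : Type} {c0 : C}

lemma ENX_mem_zip_left {f f' : List ℕ} (h : f.length = f'.length) {v : ℕ} (hv : v ∈ f) :
    ∃ v', (v, v') ∈ f.zip f' ∧ v' ∈ f' := by
  obtain ⟨i, hi, rfl⟩ := List.getElem_of_mem hv
  have hi' : i < f'.length := h ▸ hi
  refine ⟨f'[i], ?_, List.getElem_mem hi'⟩
  have : (f.zip f')[i]'(by simp [hi, hi']) = (f[i], f'[i]) := List.getElem_zip ..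
  rw [← this]
  exact List.getElem_mem _

lemma ENX_mem_zip_right {f f' : List ℕ} (h : f.length = f'.length) {v' : ℕ} (hv : v' ∈ f') :
    ∃ v, (v, v') ∈ f.zip f' ∧ v ∈ f := by
  obtain ⟨v, hz, hv⟩ := ENX_mem_zip_left h.symm hv
  refine ⟨v, ?_, hv⟩
  rw [← swap_zip f' f]
  exact List.mem_map.2 ⟨_, hz, rfl⟩

/-- the data -/
structure ENXd (c0 : C) (s : Rk) (M N : St C) (w w' : Set ℕ → Set ℕ) (a a' : List ℕ)
    (D D' : Set ℕ) : Prop where
  vM : Valid c0 M
  vN : Valid c0 N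
  dM : IsDir M w
  dN : IsDir N w'
  hD : w (ms a) = D
  hD' : w' (ms a') = D'
  la : a.length = a'.length
  tp : TP s M N w w' a a' D D'

lemma ENX_TPsymm {s : Rk} {M N : St C} {w w' : Set ℕ → Set ℕ} {a a' : List ℕ} {D D' : Set ℕ}
    (h : TP s M N w w' a a' D D') : TP s N M w' w a' a D' D := by
  intro e' e v' v hl he' he hv' hv hne' hne hb
  refine (h e e' v v' hl.symm he he' hv hv' hne hne' ?_).symm
  have := bf_symm hb
  simpa [List.map_append, swap_zip] using this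

lemma ENXd.symm {s : Rk} {M N : St C} {w w' : Set ℕ → Set ℕ} {a a' : List ℕ} {D D' : Set ℕ}
    (h : ENXd c0 s M N w w' a a' D D') : ENXd c0 s N M w' w a' a D' D :=
  ⟨h.vN, h.vM, h.dN, h.dM, h.hD', h.hD, h.la.symm, ENX_TPsymm h.tp⟩

section
variable {s : Rk} {M N : St C} {w w' : Set ℕ → Set ℕ} {a a' : List ℕ} {D D' : Set ℕ}

lemma ENXd.sub (H : ENXd c0 s M N w w' a a' D D') (f : List ℕ) : w (ms (a ++ f)) ⊆ D := by
  rw [← H.hD]
  exact H.dM.2 _ _ (ms_finite _) (by rw [ms_append]; exact subset_union_left)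

lemma ENXd.disj (H : ENXd c0 s M N w w' a a' D D') {f : List ℕ} {v : ℕ}
    (hv : v ∈ w (ms (a ++ f))) : v ∉ a ∧ v ∉ f := by
  have h1 := Set.disjoint_left.1 (H.dM.1 _ (ms_finite (a ++ f))).disj hv
  simp only [mem_ms, List.mem_append, not_or] at h1
  exact h1

lemma ENXd.disjD (H : ENXd c0 s M N w w' a a' D D') {v : ℕ}
    (hv : v ∈ D) : v ∉ a := by
  rw [← H.hD] at hv
  exact Set.disjoint_left.1 (H.dM.1 _ (ms_finite a)).disj hv

/-- membership is transferred -/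
lemma ENXd.iff (H : ENXd c0 s M N w w' a a' D D') {f f' : List ℕ} (hl : f.length = f'.length)
    (hf : ∀ z ∈ f, z ∈ D) (hf' : ∀ z ∈ f', z ∈ D') {v v' : ℕ} (hv : v ∈ D) (hv' : v' ∈ D')
    {p : List (ℕ × ℕ)} (hb : bf M N D D' s p) (hvp : (v, v') ∈ p)
    (hfp : ∀ z ∈ f.zip f', z ∈ p) (hap : ∀ z ∈ a.zip a', z ∈ p) :
    v ∈ w (ms (a ++ f)) ↔ v' ∈ w' (ms (a' ++ f')) := by
  have hPI := bf_PI hb
  by_cases h1 : v ∈ f
  · obtain ⟨v1, hz, hv1⟩ := ENX_mem_zip_left hl h1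
    have h2 : v' = v1 := (hPI.1 _ hvp _ (hfp _ hz)).1 rfl
    constructor
    · intro h; exact absurd h1 (H.disj h).2
    · intro h; exact absurd (h2 ▸ hv1) (H.symm.disj h).2
  · have h2 : v' ∉ f' := by
      intro h2
      obtain ⟨v1, hz, hv1⟩ := ENX_mem_zip_right hl h2
      have h3 : v = v1 := (hPI.1 _ hvp _ (hfp _ hz)).2 rfl
      exact h1 (h3 ▸ hv1)
    refine H.tp f f' v v' hl hf hf' hv hv' h1 h2 (bf_mono hb ?_)
    intro z hz
    simp only [List.mem_cons, List.mem_append] at hz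
    rcases hz with rfl | hz | hz
    exacts [hvp, hfp _ hz, hap _ hz]

/-- adjacency to the component is transferred back -/
lemma ENXd.nb (H : ENXd c0 s M N w w' a a' D D') {f f' : List ℕ} (hl : f.length = f'.length)
    (hf : ∀ z ∈ f, z ∈ D) (hf' : ∀ z ∈ f', z ∈ D') {q : List (ℕ × ℕ)}
    (hb : bf M N D D' (Rk.lim s) q)
    (hfp : ∀ z ∈ f.zip f', z ∈ q) (hap : ∀ z ∈ a.zip a', z ∈ q) {u u' : ℕ}
    (hu : (u, u') ∈ q) (hua : u ∈ ms (a ++ f)) (hu' : u' ∈ Nb N (w' (ms (a' ++ f')))) :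
    u ∈ Nb M (w (ms (a ++ f))) := by
  obtain ⟨_, y', hy', hE⟩ := hu'
  have hyD' : y' ∈ D' := H.symm.sub f' hy'
  obtain ⟨yl, hyl, hylD, hb'⟩ := lim_ext' hb [y'] (by simpa using hyD')
  obtain ⟨y, rfl⟩ : ∃ y, yl = [y] := List.length_eq_one_iff.1 (by simpa using hyl)
  have hyD : y ∈ D := hylD y (by simp)
  simp only [List.zip_cons_cons, List.zip_nil_right, List.cons_append, List.nil_append] at hb'
  have hy : y ∈ w (ms (a ++ f)) := (H.iff hl hf hf' hyD hyD' hb' (by simp)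
    (fun z hz => List.mem_cons_of_mem _ (hfp z hz))
    (fun z hz => List.mem_cons_of_mem _ (hap z hz))).2 hy'
  refine ⟨?_, y, hy, ?_⟩
  · intro h
    exact Set.disjoint_left.1 (H.dM.1 _ (ms_finite (a ++ f))).disj h hua
  · rw [(bf_PI hb').2.1 (u, u') (List.mem_cons_of_mem _ hu) (y, y') (by simp)]
    exact hE

/-- the separation is transferred -/
lemma ENXd.sep (H : ENXd c0 s M N w w' a a' D D') {P P' : Set ℕ} (hP : P ⊆ ms a)
    (hPP : ∀ z ∈ a.zip a', (z.1 ∈ P ↔ z.2 ∈ P'))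
    {e e' β β' : List ℕ} (hle : e.length = e'.length) (hlb : β.length = β'.length)
    (he : ∀ z ∈ e, z ∈ D) (he' : ∀ z ∈ e', z ∈ D') (hβ : ∀ z ∈ β, z ∈ D)
    (hβ' : ∀ z ∈ β', z ∈ D') {q : List (ℕ × ℕ)} (hb : bf M N D D' (Rk.lim s) q)
    (hbp : ∀ z ∈ β.zip β', z ∈ q) (hep : ∀ z ∈ e.zip e', z ∈ q) (hap : ∀ z ∈ a.zip a', z ∈ q)
    (hd : Disjoint (Nb M (w (ms (a ++ e) ∪ ms β))) (Nb M (w (ms (a ++ e))) \ P)) :
    Disjoint (Nb N (w' (ms (a' ++ e') ∪ ms β'))) (Nb N (w' (ms (a' ++ e'))) \ P') := by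
  have e1 : ms (a ++ e) ∪ ms β = ms (a ++ (e ++ β)) := by
    rw [← ms_append, List.append_assoc]
  have e2 : ms (a' ++ e') ∪ ms β' = ms (a' ++ (e' ++ β')) := by
    rw [← ms_append, List.append_assoc]
  rw [e1] at hd
  rw [e2]
  rw [Set.disjoint_left]
  rintro u' hu1 ⟨hu2, huP⟩
  have huA : u' ∈ ms (a' ++ e') := (H.dN.1 _ (ms_finite (a' ++ e'))).nb H.vN hu2
  have huA' : u' ∈ a' ∨ u' ∈ e' := by simpa using huA
  have hlf : (e ++ β).length = (e' ++ β').length := by simp [hle, hlb]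
  have hfD : ∀ z ∈ e ++ β, z ∈ D := by
    intro z hz
    rcases List.mem_append.1 hz with hz | hz
    exacts [he z hz, hβ z hz]
  have hfD' : ∀ z ∈ e' ++ β', z ∈ D' := by
    intro z hz
    rcases List.mem_append.1 hz with hz | hz
    exacts [he' z hz, hβ' z hz]
  have hfp : ∀ z ∈ (e ++ β).zip (e' ++ β'), z ∈ q := by
    intro z hz
    rw [List.zip_append hle] at hz
    rcases List.mem_append.1 hz with hz | hz
    exacts [hep z hz, hbp z hz]
  obtain ⟨u, huq, hue, hunP⟩ : ∃ u, (u, u') ∈ q ∧ (u ∈ a ∨ u ∈ e) ∧ u ∉ P := by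
    rcases huA' with h | h
    · obtain ⟨u, hz, hu⟩ := ENX_mem_zip_right H.la h
      exact ⟨u, hap _ hz, Or.inl hu, fun hp => huP ((hPP _ hz).1 hp)⟩
    · obtain ⟨u, hz, hu⟩ := ENX_mem_zip_right hle h
      exact ⟨u, hep _ hz, Or.inr hu, fun hp => H.disjD (he u hu) (hP hp)⟩
  have hu3 : u ∈ Nb M (w (ms (a ++ (e ++ β)))) := H.nb hlf hfD hfD' hb hfp hap huq
    (by simp only [mem_ms, List.mem_append]; tauto) hu1
  have hu4 : u ∈ Nb M (w (ms (a ++ e))) := H.nb hle he he' hb hep hap huq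
    (by simpa using hue) hu2
  exact Set.disjoint_left.1 hd hu3 ⟨hu4, hunP⟩

/-- corresponding lists have sets of the same size -/
lemma ENX_ncard {p : List (ℕ × ℕ)} (hp : PI M N p) {x x' : List ℕ}
    (hl : x.length = x'.length) (hx : ∀ z ∈ x.zip x', z ∈ p) : (ms x).ncard = (ms x').ncard := by
  classical
  have key : ∀ (M N : St C) (p : List (ℕ × ℕ)), PI M N p → ∀ (x x' : List ℕ),
      x.length = x'.length → (∀ z ∈ x.zip x', z ∈ p) → (ms x').ncard ≤ (ms x).ncard := by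
    intro M N p hp x x' hl hx
    have h1 : ∀ v ∈ ms x, ∃ v', (v, v') ∈ x.zip x' ∧ v' ∈ x' := fun v hv =>
      ENX_mem_zip_left hl hv
    choose! g hg hg' using h1
    have h2 : ms x' ⊆ g '' (ms x) := by
      intro v' hv'
      obtain ⟨v, hz, hv⟩ := ENX_mem_zip_right hl hv'
      exact ⟨v, hv, (hp.1 _ (hx _ (hg v hv)) _ (hx _ hz)).1 rfl⟩
    calc (ms x').ncard ≤ (g '' (ms x)).ncard := Set.ncard_le_ncard h2 ((ms_finite x).image g)
      _ ≤ (ms x).ncard := Set.ncard_image_le (ms_finite x)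
  apply le_antisymm
  · refine key N M _ (PI.symm hp) x' x hl.symm ?_
    intro z hz
    rw [← swap_zip x x'] at hz
    obtain ⟨y, hy, rfl⟩ := List.mem_map.1 hz
    exact List.mem_map.2 ⟨y, hx y hy, rfl⟩
  · exact key M N p hp x x' hl hx

end

theorem pf_ENX {C : Type} {c0 : C} : ENX C c0 := by
  intro s _ M N w w' a a' D D' hM hN hw hw' hD hD' hla htp P P' hP hP' hPP e e' x x' hle hlx
    he he' hx hx' hb hnext
  have H : ENXd c0 s M N w w' a a' D D' := ⟨hM, hN, hw, hw', hD, hD', hla, htp⟩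
  obtain ⟨_, hxw, hsep, hmin⟩ := hnext
  have hbl := RLe.lim (C := C) (Rk.lim s) _ _ _ _ _ hb
  have hbs := RLe.lim (C := C) s _ _ _ _ _ hbl
  have hPI := bf_PI hb
  have hPP' : ∀ z ∈ a'.zip a, (z.1 ∈ P' ↔ z.2 ∈ P) := by
    intro z hz
    rw [← swap_zip a a'] at hz
    obtain ⟨y, hy, rfl⟩ := List.mem_map.1 hz
    exact (hPP y hy).symm
  have qx : ∀ z ∈ x.zip x', z ∈ x.zip x' ++ (e.zip e' ++ a.zip a') := by
    intro z hz; simp only [List.mem_append]; tauto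
  have qe : ∀ z ∈ e.zip e', z ∈ x.zip x' ++ (e.zip e' ++ a.zip a') := by
    intro z hz; simp only [List.mem_append]; tauto
  have qa : ∀ z ∈ a.zip a', z ∈ x.zip x' ++ (e.zip e' ++ a.zip a') := by
    intro z hz; simp only [List.mem_append]; tauto
  have hcard : (ms x).ncard = (ms x').ncard := ENX_ncard hPI hlx qx
  refine ⟨ms_finite _, ?_, ?_, ?_⟩
  · intro v' hv'
    obtain ⟨v, hz, hv⟩ := ENX_mem_zip_right hlx hv'
    exact (H.iff hle he he' (hx v hv) (hx' v' hv') hbs (qx _ hz) qe qa).1 (hxw hv)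
  · exact H.sep hP hPP hle hlx he he' hx hx' hbl qx qe qa hsep
  · intro B' hB' hBw hBd
    obtain ⟨β', hβms, hβnd, hβl⟩ := exists_list hB'
    subst hβms
    have hβD' : ∀ z ∈ β', z ∈ D' := fun z hz => H.symm.sub e' (hBw hz)
    obtain ⟨β, hβlen, hβD, hb2⟩ := lim_ext' hb β' hβD'
    have hb2s := RLe.lim (C := C) s _ _ _ _ _ hb2
    have hPI2 := bf_PI hb2
    have rb : ∀ z ∈ β.zip β', z ∈ β.zip β' ++ (x.zip x' ++ (e.zip e' ++ a.zip a')) := by
      intro z hz; simp only [List.mem_append]; tauto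
    have rx : ∀ z ∈ x.zip x', z ∈ β.zip β' ++ (x.zip x' ++ (e.zip e' ++ a.zip a')) := by
      intro z hz; simp only [List.mem_append]; tauto
    have re : ∀ z ∈ e.zip e', z ∈ β.zip β' ++ (x.zip x' ++ (e.zip e' ++ a.zip a')) := by
      intro z hz; simp only [List.mem_append]; tauto
    have ra : ∀ z ∈ a.zip a', z ∈ β.zip β' ++ (x.zip x' ++ (e.zip e' ++ a.zip a')) := by
      intro z hz; simp only [List.mem_append]; tauto
    have hcardb : (ms β).ncard = (ms β').ncard := ENX_ncard hPI2 hβlen rb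
    have hβw : ms β ⊆ w (ms (a ++ e)) := by
      intro v hv
      obtain ⟨v', hz, hv'⟩ := ENX_mem_zip_left hβlen hv
      exact (H.iff hle he he' (hβD v hv) (hβD' v' hv') hb2s (rb _ hz) re ra).2 (hBw hv')
    have swp : ∀ {f f' : List ℕ}, (∀ z ∈ f.zip f', z ∈ β.zip β' ++
        (x.zip x' ++ (e.zip e' ++ a.zip a'))) → ∀ z ∈ f'.zip f, z ∈
        (β.zip β' ++ (x.zip x' ++ (e.zip e' ++ a.zip a'))).map Prod.swap := by
      intro f f' h z hz
      rw [← swap_zip f f'] at hz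
      obtain ⟨y, hy, rfl⟩ := List.mem_map.1 hz
      exact List.mem_map.2 ⟨y, h y hy, rfl⟩
    have hsep2 : Disjoint (Nb M (w (ms (a ++ e) ∪ ms β))) (Nb M (w (ms (a ++ e))) \ P) :=
      H.symm.sep hP' hPP' hle.symm hβlen.symm he' he hβD' hβD (bf_symm hb2) (swp rb) (swp re)
        (swp ra) hBd
    obtain ⟨h1, h2⟩ := hmin (ms β) (ms_finite β) hβw hsep2
    refine ⟨by omega, ?_⟩
    intro hc
    have h3 := h2 (by omega)
    have e1 : ∀ g : List ℕ, ms (a ++ e) ∪ ms g = ms (a ++ (e ++ g)) := by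
      intro g; rw [← ms_append, List.append_assoc]
    have e2 : ∀ g : List ℕ, ms (a' ++ e') ∪ ms g = ms (a' ++ (e' ++ g)) := by
      intro g; rw [← ms_append, List.append_assoc]
    rw [e1, e1] at h3
    rw [e2, e2]
    intro y' hy'
    have hyD' : y' ∈ D' := H.symm.sub _ hy'
    obtain ⟨yl, hyl, hylD, hb3⟩ := lim_ext' hb2 [y'] (by simpa using hyD')
    obtain ⟨y, rfl⟩ : ∃ y, yl = [y] := List.length_eq_one_iff.1 (by simpa using hyl)
    have hyD : y ∈ D := hylD y (by simp)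
    simp only [List.zip_cons_cons, List.zip_nil_right, List.cons_append, List.nil_append] at hb3
    have app : ∀ {g g' : List ℕ}, (∀ z ∈ g.zip g', z ∈ β.zip β' ++
        (x.zip x' ++ (e.zip e' ++ a.zip a'))) → ∀ z ∈ (e ++ g).zip (e' ++ g'), z ∈
        (y, y') :: (β.zip β' ++ (x.zip x' ++ (e.zip e' ++ a.zip a'))) := by
      intro g g' h z hz
      rw [List.zip_append hle] at hz
      rcases List.mem_append.1 hz with hz | hz
      exacts [List.mem_cons_of_mem _ (re z hz), List.mem_cons_of_mem _ (h z hz)]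
    have appD : ∀ {g : List ℕ}, (∀ z ∈ g, z ∈ D) → ∀ z ∈ e ++ g, z ∈ D := by
      intro g hg z hz
      rcases List.mem_append.1 hz with hz | hz
      exacts [he z hz, hg z hz]
    have appD' : ∀ {g : List ℕ}, (∀ z ∈ g, z ∈ D') → ∀ z ∈ e' ++ g, z ∈ D' := by
      intro g hg z hz
      rcases List.mem_append.1 hz with hz | hz
      exacts [he' z hz, hg z hz]
    have hy : y ∈ w (ms (a ++ (e ++ β))) := (H.iff (by simp [hle, hβlen]) (appD hβD)
      (appD' hβD') hyD hyD' hb3 (by simp) (app rb)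
      (fun z hz => List.mem_cons_of_mem _ (ra z hz))).2 hy'
    exact (H.iff (by simp [hle, hlx]) (appD hx) (appD' hx') hyD hyD' hb3 (by simp) (app rx)
      (fun z hz => List.mem_cons_of_mem _ (ra z hz))).1 (h3 hy)

end Pool.Agent.TK
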