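import Pool.Agent.H16.TK.Stmt2

/-! Module GLB: gluing isomorphisms of components. -/

set_option autoImplicit false

open Set

namespace Pool.Agent.TK

theorem pf_GLB {C : Type} {c0 : C} : GLB C c0 := by
  classical
  intro M M' a a' U U' hM hM' hla hU hU' hPI F hF hFI
  -- the isomorphism of a component depends only on the component
  have hex : ∀ D : Set ℕ, ∃ g : ℕ → ℕ, (∃ v ∈ U, D = cp M (ms a) v) → FIh g M a D M' a' (F D) := by
    intro D
    by_cases hD : ∃ v ∈ U, D = cp M (ms a) v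
    · obtain ⟨v, hv, rfl⟩ := hD
      obtain ⟨g, hg⟩ := hFI v hv
      exact ⟨g, fun _ => hg⟩
    · exact ⟨id, fun h => absurd h hD⟩
  choose g hg using hex
  have hgv : ∀ v ∈ U, FIh (g (cp M (ms a) v)) M a (cp M (ms a) v) M' a' (F (cp M (ms a) v)) :=
    fun v hv => hg _ ⟨v, hv, rfl⟩
  set h : ℕ → ℕ := fun x => g (cp M (ms a) x) x with hh
  have hself : ∀ v ∈ U, v ∈ cp M (ms a) v := fun v hv => self_mem_cp (hU v hv).1
  have hFcp : ∀ v ∈ U, ∃ v' ∈ U', F (cp M (ms a) v) = cp M' (ms a') v' := fun v hv =>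
    hF.mapsTo ⟨v, hv, rfl⟩
  have hhF : ∀ v ∈ U, h v ∈ F (cp M (ms a) v) := fun v hv => (hgv v hv).2.1.mapsTo (hself v hv)
  have hFsub : ∀ v ∈ U, F (cp M (ms a) v) ⊆ U' := by
    intro v hv
    obtain ⟨v', hv', he⟩ := hFcp v hv
    rw [he]
    exact (hU' v' hv').2
  have hhU : ∀ v ∈ U, h v ∈ U' := fun v hv => hFsub v hv (hhF v hv)
  have hFisCp : ∀ v ∈ U, IsCp M' (ms a') (F (cp M (ms a) v)) := by
    intro v hv
    obtain ⟨v', hv', he⟩ := hFcp v hv
    rw [he]
    exact isCp_cp (hU' v' hv').1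
  -- points of one component of the image come from one component
  have hsame : ∀ u ∈ U, ∀ v ∈ U, ∀ y, y ∈ F (cp M (ms a) u) → y ∈ F (cp M (ms a) v) →
      cp M (ms a) u = cp M (ms a) v := by
    intro u hu v hv y hy hy'
    exact hF.injOn ⟨u, hu, rfl⟩ ⟨v, hv, rfl⟩ ((hFisCp u hu).eq_of_inter hM' (hFisCp v hv) hy hy')
  have hinj : InjOn h U := by
    intro x hx y hy hxy
    have e := hsame x hx y hy (h x) (hhF x hx) (hxy ▸ hhF y hy)
    have h1 : g (cp M (ms a) x) x = g (cp M (ms a) x) y := by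
      have h2 : g (cp M (ms a) x) x = g (cp M (ms a) y) y := hxy
      rw [h2, e]
    exact (hgv x hx).2.1.injOn (hself x hx) (e ▸ hself y hy) h1
  have hbij : BijOn h U U' := by
    refine ⟨hhU, hinj, ?_⟩
    intro y' hy'
    obtain ⟨D, ⟨v, hv, rfl⟩, hD⟩ := hF.surjOn ⟨y', hy', rfl⟩
    have hy2 : y' ∈ F (cp M (ms a) v) := by
      rw [hD]
      exact self_mem_cp (hU' y' hy').1
    obtain ⟨x, hx, hxy⟩ := (hgv v hv).2.1.surjOn hy2
    refine ⟨x, (hU v hv).2 hx, ?_⟩
    have e : cp M (ms a) x = cp M (ms a) v := cp_eq hM hx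
    simp only [hh]
    rw [e]
    exact hxy
  -- adjacency between different components
  have hadj : ∀ u ∈ U, ∀ v ∈ U, cp M (ms a) u ≠ cp M (ms a) v → M.1 u v = false := by
    intro u hu v hv hne
    by_contra hE
    have hE' : M.1 u v = true := by simpa using hE
    apply hne
    exact (cp_eq hM (Conn.single (hU u hu).1 hE' (hU v hv).1)).symm
  have hadj' : ∀ u ∈ U, ∀ v ∈ U, cp M (ms a) u ≠ cp M (ms a) v → M'.1 (h u) (h v) = false := by
    intro u hu v hv hne
    by_contra hE
    have hE' : M'.1 (h u) (h v) = true := by simpa using hE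
    apply hne
    refine hsame u hu v hv (h v) ?_ (hhF v hv)
    rw [(hFisCp u hu).eq_cp hM' (hhF u hu)]
    exact Conn.single (hU' _ (hhU u hu)).1 hE' (hU' _ (hhU v hv)).1
  -- the local position
  have hloc : ∀ u ∈ U, ∀ x : List ℕ, (∀ z ∈ x, z ∈ cp M (ms a) u) →
      PI M M' (a.zip a' ++ x.map (fun z => (z, h z))) := by
    intro u hu x hx
    have h1 := (hgv u hu).2.2 x hx
    have h2 : x.map (fun z => (z, h z)) = x.map (fun z => (z, g (cp M (ms a) u) z)) := by
      apply List.map_congr_left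
      intro z hz
      simp only [hh]
      rw [cp_eq hM (hx z hz)]
    rw [h2]
    exact h1
  have hza : ∀ z ∈ a.zip a', z.1 ∈ a ∧ z.2 ∈ a' := by
    rintro ⟨z1, z2⟩ hz
    exact List.of_mem_zip hz
  refine ⟨h, hla, hbij, ?_⟩
  intro x hx
  have hmem : ∀ z ∈ a.zip a' ++ x.map (fun z => (z, h z)), z ∈ a.zip a' ∨
      (z.1 ∈ U ∧ z.2 = h z.1) := by
    intro z hz
    rcases List.mem_append.1 hz with hz | hz
    · exact Or.inl hz
    · obtain ⟨w, hw, rfl⟩ := List.mem_map.1 hz
      exact Or.inr ⟨hx w hw, rfl⟩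
  refine ⟨?_, ?_, ?_⟩
  · intro z hz w hw
    rcases hmem z hz with hz | ⟨hz, hz2⟩ <;> rcases hmem w hw with hw | ⟨hw, hw2⟩
    · exact hPI.1 z hz w hw
    · constructor
      · intro e; exact absurd (e ▸ (hza z hz).1) (hU _ hw).1
      · intro e; rw [hw2] at e; exact absurd (e ▸ (hza z hz).2) (hU' _ (hhU _ hw)).1
    · constructor
      · intro e; exact absurd (e ▸ (hza w hw).1) (hU _ hz).1
      · intro e; rw [hz2] at e; exact absurd (e ▸ (hza w hw).2) (hU' _ (hhU _ hz)).1
    · rw [hz2, hw2]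
      exact ⟨fun e => by rw [e], fun e => hinj hz hw e⟩
  · intro z hz w hw
    rcases hmem z hz with hz | ⟨hz, hz2⟩ <;> rcases hmem w hw with hw | ⟨hw, hw2⟩
    · exact hPI.2.1 z hz w hw
    · have h1 := (hloc w.1 hw [w.1] (by simpa using hself _ hw)).2.1 z
        (List.mem_append_left _ hz) (w.1, h w.1) (by simp)
      rw [hw2]
      exact h1
    · have h1 := (hloc z.1 hz [z.1] (by simpa using hself _ hz)).2.1 (z.1, h z.1) (by simp) w
        (List.mem_append_left _ hw)
      rw [hz2]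
      exact h1
    · rw [hz2, hw2]
      by_cases e : cp M (ms a) z.1 = cp M (ms a) w.1
      · exact (hloc z.1 hz [z.1, w.1] (by
          intro y hy
          simp only [List.mem_cons, List.not_mem_nil, or_false] at hy
          rcases hy with rfl | rfl
          · exact hself _ hz
          · rw [e]; exact hself _ hw)).2.1 (z.1, h z.1) (by simp) (w.1, h w.1) (by simp)
      · rw [hadj _ hz _ hw e, hadj' _ hz _ hw e]
  · intro q hq
    have hq' : ∀ z ∈ q, z ∈ a.zip a' ∨ (z.1 ∈ U ∧ z.2 = h z.1) := fun z hz => hmem z (hq z hz)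
    by_cases hall : ∀ z ∈ q, z ∈ a.zip a'
    · exact hPI.2.2 q hall
    · push Not at hall
      obtain ⟨z0, hz0, hz0a⟩ := hall
      obtain ⟨hz0U, hz02⟩ := (hq' z0 hz0).resolve_left hz0a
      by_cases hone : ∀ z ∈ q, z ∈ a.zip a' ∨ (z.1 ∈ cp M (ms a) z0.1 ∧ z.2 = h z.1)
      · refine (hloc z0.1 hz0U ((q.filter (fun z => z.1 ∈ cp M (ms a) z0.1)).map Prod.fst) ?_).2.2
          q ?_
        · intro y hy
          obtain ⟨z, hz, rfl⟩ := List.mem_map.1 hy
          simpa using (List.mem_filter.1 hz).2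
        · intro z hz
          rcases hone z hz with h1 | ⟨h1, h2⟩
          · exact List.mem_append_left _ h1
          · apply List.mem_append_right
            rw [List.map_map]
            refine List.mem_map.2 ⟨z, List.mem_filter.2 ⟨hz, by simpa using h1⟩, ?_⟩
            simp only [Function.comp]
            rw [← h2]
      · push Not at hone
        obtain ⟨w, hw, hwa, hw'⟩ := hone
        obtain ⟨hwU, hw2⟩ := (hq' w hw).resolve_left hwa
        have hne : cp M (ms a) z0.1 ≠ cp M (ms a) w.1 := by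
          intro e
          exact hw' (e ▸ hself _ hwU) hw2
        have hne1 : z0.1 ≠ w.1 := fun e => hne (by rw [e])
        have hne2 : z0.2 ≠ w.2 := by
          rw [hz02, hw2]
          exact fun e => hne1 (hinj hz0U hwU e)
        have c1 : M.2 (q.map Prod.fst) = c0 := by
          by_contra hc
          have := hM.2.2 _ hc z0.1 (List.mem_map.2 ⟨z0, hz0, rfl⟩) w.1
            (List.mem_map.2 ⟨w, hw, rfl⟩) hne1
          rw [hadj _ hz0U _ hwU hne] at this
          exact absurd this (by simp)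
        have c2 : M'.2 (q.map Prod.snd) = c0 := by
          by_contra hc
          have := hM'.2.2 _ hc z0.2 (List.mem_map.2 ⟨z0, hz0, rfl⟩) w.2
            (List.mem_map.2 ⟨w, hw, rfl⟩) hne2
          rw [hz02, hw2, hadj' _ hz0U _ hwU hne] at this
          exact absurd this (by simp)
        rw [c1, c2]

end Pool.Agent.TK
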